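import Pool.Agent.Helper55.BQ.Basic

set_option autoImplicit false

namespace Pool.Agent.Helper55.BQ

open Finset

universe u

/-- a case of Lucas' theorem -/
theorem choose_pow_modEq {p : ℕ} [hpf : Fact p.Prime] (v : ℕ) : ∀ B R : ℕ, R < p ^ v →
    (p ^ v * B + R).choose (p ^ v) ≡ B [MOD p] := by
  have hp := hpf.out.pos
  induction v with
  | zero =>
    intro B R hR
    rw [pow_zero] at hR ⊢
    rw [show 1 * B + R = B by omega, Nat.choose_one_right]
  | succ v ih =>
    intro B R hR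
    have h1 := Choose.choose_modEq_choose_mod_mul_choose_div_nat (n := p ^ (v + 1) * B + R)
      (k := p ^ (v + 1)) (p := p)
    have e1 : (p ^ (v + 1) * B + R) / p = p ^ v * B + R / p := by
      rw [pow_succ', mul_assoc, Nat.mul_add_div hp]
    have e2 : p ^ (v + 1) % p = 0 := by rw [pow_succ', Nat.mul_mod_right]
    have e3 : p ^ (v + 1) / p = p ^ v := by rw [pow_succ', Nat.mul_div_cancel_left _ hp]
    rw [e1, e2, e3, Nat.choose_zero_right, one_mul] at h1
    refine h1.trans (ih B (R / p) ?_)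
    rw [Nat.div_lt_iff_lt_mul hp, ← pow_succ]
    exact hR

/-- the coefficient of `P^r` in the Adem relation for `P^(p^v) P^(r - p^v)` -/
theorem coeff_ne {p : ℕ} [hpf : Fact p.Prime] {v a : ℕ} (ha : ¬ p ∣ a) (ha2 : 2 ≤ a) :
    (ademCoeff p (p ^ v) (p ^ v * a - p ^ v) 0 : ZMod p) ≠ 0 := by
  rw [ademCoeff]
  have hp := hpf.out.two_le
  have hv : 0 < p ^ v := Nat.pow_pos (by omega)
  obtain ⟨b, rfl⟩ : ∃ b, a = b + 2 := ⟨a - 2, by omega⟩
  obtain ⟨q, hq⟩ : ∃ q, p = q + 2 := ⟨p - 2, by omega⟩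
  have e1 : p ^ v * (b + 2) - p ^ v = p ^ v * (b + 1) := by
    rw [show p ^ v * (b + 2) = p ^ v * (b + 1) + p ^ v by ring, Nat.add_sub_cancel]
  have e2 : (p - 1) * (p ^ v * (b + 1)) - 1 = p ^ v * ((p - 1) * (b + 1) - 1) + (p ^ v - 1) := by
    have h1 : (p - 1) * (b + 1) = (p - 1) * (b + 1) - 1 + 1 := by
      have : 0 < (p - 1) * (b + 1) := Nat.mul_pos (by omega) (by omega)
      omega
    have h2 : (p - 1) * (p ^ v * (b + 1)) = p ^ v * ((p - 1) * (b + 1) - 1) + p ^ v := by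
      calc (p - 1) * (p ^ v * (b + 1)) = p ^ v * ((p - 1) * (b + 1)) := by ring
        _ = p ^ v * ((p - 1) * (b + 1) - 1 + 1) := by rw [← h1]
        _ = _ := by ring
    omega
  rw [Nat.sub_zero, e1, e2, mul_zero, Nat.sub_zero]
  push_cast
  apply mul_ne_zero
  · exact pow_ne_zero _ (neg_ne_zero.2 one_ne_zero)
  · rw [Ne, ZMod.natCast_eq_zero_iff]
    intro h0
    have h1 := choose_pow_modEq (p := p) v ((p - 1) * (b + 1) - 1) (p ^ v - 1) (by omega)
    have h2 : p ∣ (p - 1) * (b + 1) - 1 := (h1.dvd_iff dvd_rfl).1 h0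
    apply ha
    have h3 : (p - 1) * (b + 1) - 1 + (b + 2) = p * (b + 1) := by
      subst hq
      have : (q + 2 - 1) * (b + 1) = (q + 1) * b + q + 1 := by
        rw [show q + 2 - 1 = q + 1 by omega]
        ring
      rw [this, show (q + 1) * b + q + 1 - 1 = (q + 1) * b + q by omega]
      ring
    have h4 : p ∣ (p - 1) * (b + 1) - 1 + (b + 2) := h3 ▸ dvd_mul_right _ _
    exact (Nat.dvd_add_right h2).1 h4

namespace UAlg

variable {p : ℕ} {A : UAlg.{u} p}

/-- `P^r` vanishes on the classes of degree `N - 2(p-1)r` -/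
def Good (A : UAlg.{u} p) (N r : ℕ) : Prop :=
  ∀ e, e + 2 * (p - 1) * r = N → ∀ v ∈ A.gr e, A.P r v = 0

/-- decomposition of an integer which is not a power of `p` -/
theorem exists_dec [hpf : Fact p.Prime] {r : ℕ} (hr : 0 < r) (hpow : ∀ j, r ≠ p ^ j) :
    ∃ v a, r = p ^ v * a ∧ ¬ p ∣ a ∧ 2 ≤ a := by
  obtain ⟨v, a, ha, hra⟩ := Nat.exists_eq_pow_mul_and_not_dvd hr.ne' p hpf.out.ne_one
  refine ⟨v, a, hra, ha, ?_⟩
  rcases Nat.lt_or_ge a 2 with h | h
  · exfalso
    interval_cases a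
    · exact ha (dvd_zero p)
    · exact hpow v (by rw [hra, mul_one])
  · exact h

/-- the Adem relation solved for `P^r` -/
theorem P_eq [hpf : Fact p.Prime] {v a : ℕ} (ha : ¬ p ∣ a) (ha2 : 2 ≤ a) :
    ∃ (c : ZMod p) (g : ℕ → ℤ), c ≠ 0 ∧ (∀ y : A.H,
      c • A.P (p ^ v * a) y = A.P (p ^ v) (A.P (p ^ v * a - p ^ v) y) -
        ∑ t ∈ range (p ^ v / p), g t • A.P (p ^ v * a - (t + 1)) (A.P (t + 1) y)) ∧
      ∀ (q : ℕ → A.H), (∀ i j, i < p * j → A.thomP q i (q j) = ∑ t ∈ range (i / p + 1),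
        ademCoeff p i j t • A.thomP q (i + j - t) (q t)) → q 0 = 1 →
        c • A.thomP q (p ^ v * a) 1 = A.thomP q (p ^ v) (q (p ^ v * a - p ^ v)) -
          ∑ t ∈ range (p ^ v / p), g t • A.thomP q (p ^ v * a - (t + 1)) (q (t + 1)) := by
  have hp := hpf.out.two_le
  have hv : 0 < p ^ v := Nat.pow_pos (by omega)
  have h2 : 2 * p ^ v ≤ p ^ v * a := by
    rw [mul_comm]
    exact Nat.mul_le_mul_left _ ha2
  have hlt : p ^ v < p * (p ^ v * a - p ^ v) := by
    have : 2 * (p ^ v * a - p ^ v) ≤ p * (p ^ v * a - p ^ v) := Nat.mul_le_mul_right _ hp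
    omega
  refine ⟨_, fun t => ademCoeff p (p ^ v) (p ^ v * a - p ^ v) (t + 1),
    coeff_ne (v := v) ha ha2, ?_, ?_⟩
  · intro y
    have h1 := A.adem (p ^ v) (p ^ v * a - p ^ v) y hlt
    rw [Finset.sum_range_succ', show p ^ v + (p ^ v * a - p ^ v) = p ^ v * a by omega] at h1
    rw [h1, Int.cast_smul_eq_zsmul]
    simp only [Nat.sub_zero, A.P_zero]
    abel
  · intro q hq hq0
    have h1 := hq (p ^ v) (p ^ v * a - p ^ v) hlt
    rw [Finset.sum_range_succ', show p ^ v + (p ^ v * a - p ^ v) = p ^ v * a by omega] at h1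
    rw [h1, Int.cast_smul_eq_zsmul]
    simp only [Nat.sub_zero, hq0]
    abel

theorem good_of [hpf : Fact p.Prime] {N : ℕ} : ∀ r, 0 < r → (∀ j, p ^ j ∣ r → A.Good N (p ^ j)) →
    A.Good N r := by
  have hp := hpf.out.two_le
  intro r
  induction r using Nat.strong_induction_on with
  | _ r ih =>
    intro hr hgood
    by_cases hpow : ∃ j, r = p ^ j
    · obtain ⟨j, rfl⟩ := hpow
      exact hgood j dvd_rfl
    push Not at hpow
    obtain ⟨v, a, rfl, ha, ha2⟩ := exists_dec hr hpow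
    intro e he y hy
    obtain ⟨c, g, hc, hg, -⟩ := P_eq (A := A) (v := v) ha ha2
    have hv : 0 < p ^ v := Nat.pow_pos (by omega)
    have h2 : 2 * p ^ v ≤ p ^ v * a := by
      rw [mul_comm]
      exact Nat.mul_le_mul_left _ ha2
    have hdiv : p ^ v / p < p ^ v := Nat.div_lt_self hv (by omega)
    have h1 := hg y
    rw [hgood v (dvd_mul_right _ _) _ ?_ _ (A.P_mem (p ^ v * a - p ^ v) e y hy),
      Finset.sum_eq_zero, sub_zero] at h1
    · exact (smul_eq_zero.1 h1).resolve_left hc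
    · intro t ht
      rw [mem_range] at ht
      have h3 : A.Good N (p ^ v * a - (t + 1)) := by
        apply ih _ (by omega) (by omega)
        intro j hj
        apply hgood
        rcases Nat.lt_or_ge v j with hvj | hvj
        · exfalso
          have h4 : p ^ v ∣ p ^ v * a - (t + 1) := (pow_dvd_pow p hvj.le).trans hj
          have h5 : p ^ v ∣ t + 1 := by
            have h6 : p ^ v ∣ (p ^ v * a - (t + 1)) + (t + 1) := by
              rw [Nat.sub_add_cancel (by omega)]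
              exact dvd_mul_right _ _
            exact (Nat.dvd_add_right h4).1 h6
          exact absurd (Nat.le_of_dvd (by omega) h5) (by omega)
        · exact (pow_dvd_pow p hvj).trans (dvd_mul_right _ _)
      rw [h3 _ ?_ _ (A.P_mem (t + 1) e y hy), smul_zero]
      rw [← he, add_assoc, ← mul_add, show t + 1 + (p ^ v * a - (t + 1)) = p ^ v * a by omega]
    · rw [← he, add_assoc, ← mul_add, show p ^ v * a - p ^ v + p ^ v = p ^ v * a by omega]

end UAlg

end Pool.Agent.Helper55.BQ
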