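import Pool.Agent.Helper55.BQ.Defs

set_option autoImplicit false

namespace Pool.Agent.Helper55.BQ

open Finset

universe u

namespace UAlg

variable {p : ℕ} {A : UAlg.{u} p}

theorem mul_mem {i j : ℕ} {a b : A.H} (ha : a ∈ A.gr i) (hb : b ∈ A.gr j) : a * b ∈ A.gr (i + j) :=
  SetLike.mul_mem_graded ha hb

theorem pow_mem {k : ℕ} {x : A.H} (hx : x ∈ A.gr k) (n : ℕ) : x ^ n ∈ A.gr (n * k) := by
  have := SetLike.pow_mem_graded n hx
  simpa [smul_eq_mul] using this

theorem one_mem : (1 : A.H) ∈ A.gr 0 := SetLike.GradedOne.one_mem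

theorem P_map_zero (i : ℕ) : A.P i 0 = 0 := by
  have h := A.P_add i 0 0
  rw [add_zero] at h
  exact left_eq_add.1 h

theorem bock_map_zero : A.bock 0 = 0 := by
  have h := A.bock_add 0 0
  rw [add_zero] at h
  exact left_eq_add.1 h

theorem P_map_smul (i : ℕ) (c : ZMod p) (a : A.H) : A.P i (c • a) = c • A.P i a :=
  ZMod.map_smul (AddMonoidHom.mk' (A.P i) (A.P_add i)) c a

theorem center_of_even {n : ℕ} (hn : Even n) {a : A.H} (ha : a ∈ A.gr n) (b : A.H) :
    a * b = b * a := by
  induction b using DirectSum.Decomposition.inductionOn A.gr with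
  | zero => simp
  | @homogeneous i b =>
    rw [A.comm n i a b ha b.2, (hn.mul_right i).neg_one_pow, one_mul]
  | add b c hb hc => rw [mul_add, add_mul, hb, hc]

namespace MinimalPeriodic

variable [hpf : Fact p.Prime] (hp : p ≠ 2) {k : ℕ} {x : A.H} (h : A.MinimalPeriodic k x)

include h

theorem two_k_le : k + k ≤ p * k := by
  have := hpf.out.two_le
  nlinarith

include hp in
theorem even : Even k := by
  by_contra hodd
  rw [Nat.not_even_iff_odd] at hodd
  have h1 := A.comm k k x x h.mem h.mem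
  rw [(hodd.mul hodd).neg_one_pow, neg_one_mul] at h1
  have h2 : (2 : ZMod p) • (x * x) = 0 := by
    rw [two_smul]
    nth_rewrite 1 [h1]
    exact neg_add_cancel _
  have h3 : (2 : ZMod p) ≠ 0 := by
    intro h0
    have h4 : ((2 : ℕ) : ZMod p) = 0 := by exact_mod_cast h0
    rw [ZMod.natCast_eq_zero_iff] at h4
    exact hp ((Nat.prime_dvd_prime_iff_eq hpf.out Nat.prime_two).1 h4)
  have h5 : x * x = 0 := (smul_eq_zero.1 h2).resolve_left h3
  exact h.ne_zero (h.periodic.2 k h.pos h.two_k_le x h.mem h5)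

include hp in
theorem center (a : A.H) : x * a = a * x := center_of_even (h.even hp) h.mem a

theorem cancel {i : ℕ} (hi : 0 < i) (hik : i + k ≤ p * k) {a : A.H} (ha : a ∈ A.gr i)
    (hab : x * a = 0) : a = 0 := h.periodic.2 i hi hik a ha hab

theorem cancel' {i : ℕ} (hi : 0 < i) (hik : i + k ≤ p * k) {a b : A.H} (ha : a ∈ A.gr i)
    (hb : b ∈ A.gr i) (hab : x * a = x * b) : a = b := by
  rw [← sub_eq_zero]
  apply h.cancel hi hik (Submodule.sub_mem _ ha hb)
  rw [mul_sub, hab, sub_self]

theorem pow_ne {n : ℕ} (hn : n ≤ p) : x ^ n ≠ 0 := by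
  induction n with
  | zero => rw [pow_zero]; exact A.nontrivial
  | succ n ih =>
    rcases Nat.eq_zero_or_pos n with h0 | h0
    · subst h0
      rw [zero_add, pow_one]
      exact h.ne_zero
    · intro h1
      rw [pow_succ'] at h1
      refine ih (by omega) (h.cancel (Nat.mul_pos h0 h.pos) ?_ (pow_mem h.mem n) h1)
      have := Nat.mul_le_mul_right k hn
      rwa [add_mul, one_mul] at this

theorem divx (n d : ℕ) (hnd : n * k + d < p * k) {z : A.H} (hz : z ∈ A.gr (n * k + d)) :
    ∃ c ∈ A.gr d, z = x ^ n * c := by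
  induction n generalizing z with
  | zero => exact ⟨z, by simpa using hz, by simp⟩
  | succ n ih =>
    rw [add_mul, one_mul] at hnd
    obtain ⟨u, hu, hxu⟩ := h.periodic.1 (n * k + d) (by omega) z
      (by rw [add_mul, one_mul] at hz; rwa [show n * k + d + k = n * k + k + d by omega])
    obtain ⟨c, hc, huc⟩ := ih (by omega) hu
    exact ⟨c, hc, by rw [← hxu, huc, pow_succ', mul_assoc]⟩

theorem top {n : ℕ} (hn : n < p) {z : A.H} (hz : z ∈ A.gr (n * k)) : ∃ c : ZMod p, z = c • x ^ n := by
  obtain ⟨a, ha, hza⟩ := h.divx n 0 (by have := Nat.mul_lt_mul_of_pos_right hn h.pos; omega) (z := z)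
    (by simpa using hz)
  obtain ⟨c, rfl⟩ := A.connected a ha
  exact ⟨c, by rw [hza, mul_smul_comm, mul_one]⟩

include hp in
/-- a factor of a periodicity inducing element induces periodicity -/
theorem factor {i j : ℕ} (hi : 0 < i)
    (hij : i + j = k) {y z : A.H} (hy : y ∈ A.gr i) (hz : z ∈ A.gr j) (hyz : y * z = x) :
    A.Periodic i y (p * k) := by
  have h2 := h.two_k_le
  have hc := h.center hp
  have hx := A.comm i j y z hy hz
  rw [hyz] at hx
  constructor
  · intro e he w hw
    by_cases hek : k ≤ e + i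
    · obtain ⟨w', hw', hxw⟩ := h.periodic.1 (e + i - k) (by omega) w
        (by rw [show e + i - k + k = e + i by omega]; exact hw)
      refine ⟨z * w', ?_, ?_⟩
      · have := mul_mem hz hw'
        rwa [show j + (e + i - k) = e by omega] at this
      · rw [← hxw, ← hyz, mul_assoc]
    · have hzw : z * w ∈ A.gr (e + k) := by
        have := mul_mem hz hw
        rwa [show j + (e + i) = e + k by omega] at this
      obtain ⟨v, hv, hxv⟩ := h.periodic.1 e (by omega) _ hzw
      refine ⟨v, hv, ?_⟩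
      have hyv : y * v ∈ A.gr (e + i) := by
        have := mul_mem hy hv
        rwa [add_comm] at this
      apply h.cancel' (i := e + i) (by omega) (by omega) hyv hw
      rw [← mul_assoc, hc y, mul_assoc, hxv, ← mul_assoc, hyz]
  · intro e he hei u hu hyu
    have key : ∀ w : A.H, y * w = 0 → x * w = 0 := by
      intro w hw
      rw [hx, mul_assoc, mul_assoc, hw, mul_zero, mul_zero]
    by_cases hek : e + k ≤ p * k
    · exact h.cancel he hek hu (key u hyu)
    · obtain ⟨u', hu', hxu'⟩ := h.periodic.1 (e - k) (by omega) u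
        (by rw [show e - k + k = e by omega]; exact hu)
      have h1 : y * u' = 0 := by
        apply h.cancel (i := i + (e - k)) (by omega) (by omega) (mul_mem hy hu')
        rw [← mul_assoc, hc y, mul_assoc, hxu', hyu]
      have h3 : u' = 0 := h.cancel (i := e - k) (by omega) (by omega) hu' (key u' h1)
      rw [← hxu', h3, mul_zero]

include hp in
/-- products of classes of positive degree vanish in degree `k` -/
theorem prod {i j : ℕ} (hi : 0 < i) (hj : 0 < j) (hij : i + j = k) {y z : A.H} (hy : y ∈ A.gr i)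
    (hz : z ∈ A.gr j) : y * z = 0 := by
  by_contra hne
  have hm : y * z ∈ A.gr k := hij ▸ mul_mem hy hz
  obtain ⟨c, hc⟩ := h.top (n := 1) hpf.out.one_lt (by simpa using hm)
  rw [pow_one] at hc
  have hc0 : c ≠ 0 := by
    rintro rfl
    exact hne (by rw [hc, zero_smul])
  refine h.minimal i hi (by omega) y hy ?_ (h.factor hp hi hij hy
    (Submodule.smul_mem _ c⁻¹ hz) ?_)
  · rintro rfl
    exact hne (zero_mul _)
  · rw [mul_smul_comm, hc, smul_smul, inv_mul_cancel₀ hc0, one_smul]

include hp in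
/-- products of classes of degrees not divisible by `k` vanish in degree `n * k` -/
theorem prod' {a b n : ℕ} (hn : n ≤ p) (hab : a + b = n * k) (ha : ¬ k ∣ a) {y z : A.H}
    (hy : y ∈ A.gr a) (hz : z ∈ A.gr b) : y * z = 0 := by
  have hk := h.pos
  have hnk : n * k ≤ p * k := Nat.mul_le_mul_right k hn
  have hb : ¬ k ∣ b := by
    intro hb
    apply ha
    have : k ∣ a + b := hab ▸ Dvd.intro_left n rfl
    exact (Nat.dvd_add_left hb).1 this
  have ha0 : 0 < a := by
    rcases Nat.eq_zero_or_pos a with h0 | h0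
    · exact absurd (h0 ▸ dvd_zero k) ha
    · exact h0
  have hb0 : 0 < b := by
    rcases Nat.eq_zero_or_pos b with h0 | h0
    · exact absurd (h0 ▸ dvd_zero k) hb
    · exact h0
  have ea : a / k * k + a % k = a := by rw [mul_comm]; exact Nat.div_add_mod a k
  have eb : b / k * k + b % k = b := by rw [mul_comm]; exact Nat.div_add_mod b k
  have la : a % k < k := Nat.mod_lt _ hk
  have lb : b % k < k := Nat.mod_lt _ hk
  have pa : 0 < a % k := by
    rcases Nat.eq_zero_or_pos (a % k) with h0 | h0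
    · exact absurd (Nat.dvd_of_mod_eq_zero h0) ha
    · exact h0
  have pb : 0 < b % k := by
    rcases Nat.eq_zero_or_pos (b % k) with h0 | h0
    · exact absurd (Nat.dvd_of_mod_eq_zero h0) hb
    · exact h0
  have hsum : a % k + b % k = k := by
    have h1 : k ∣ a % k + b % k := by
      have h2 : k ∣ (a / k * k + b / k * k) + (a % k + b % k) := by
        rw [show (a / k * k + b / k * k) + (a % k + b % k) = n * k by omega]
        exact Dvd.intro_left n rfl
      exact (Nat.dvd_add_right (Dvd.dvd.add (Dvd.intro_left _ rfl) (Dvd.intro_left _ rfl))).1 h2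
    obtain ⟨c, hc⟩ := h1
    have : c = 1 := by
      rcases Nat.lt_or_ge c 2 with h3 | h3
      · interval_cases c
        · omega
        · rfl
      · have := Nat.mul_le_mul_left k h3
        omega
    rw [hc, this, mul_one]
  obtain ⟨y', hy', rfl⟩ := h.divx (a / k) (a % k) (by omega) (z := y) (by rwa [ea])
  obtain ⟨z', hz', rfl⟩ := h.divx (b / k) (b % k) (by omega) (z := z) (by rwa [eb])
  have hc : ∀ c : A.H, x ^ (b / k) * c = c * x ^ (b / k) := fun c =>
    ((show Commute x c from h.center hp c).pow_left (b / k)).eq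
  rw [mul_assoc, ← mul_assoc y', ← hc y', mul_assoc (x ^ (b / k)), h.prod hp pa pb hsum hy' hz',
    mul_zero, mul_zero]

include hp in
/-- a Cartan formula in which only one term survives -/
theorem P_mul {e f i a n : ℕ} {y z : A.H} (hy : y ∈ A.gr e) (hz : z ∈ A.gr f) (ha : a ≤ i)
    (hn : n ≤ p) (hdeg : e + f + 2 * (p - 1) * i = n * k)
    (hne : ∀ b ≤ i, b ≠ a → ¬ k ∣ e + 2 * (p - 1) * b) :
    A.P i (y * z) = A.P a y * A.P (i - a) z := by
  rw [A.cartan, Finset.sum_eq_single (a, i - a)]
  · rintro ⟨b, c⟩ hbc hne'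
    rw [Finset.HasAntidiagonal.mem_antidiagonal] at hbc
    simp only at hbc ⊢
    have hb : b ≠ a := by
      rintro rfl
      apply hne'
      rw [Prod.mk.injEq]
      exact ⟨rfl, by omega⟩
    apply h.prod' hp hn _ (hne b (by omega) hb) (A.P_mem b e y hy) (A.P_mem c f z hz)
    rw [← hdeg, ← hbc]
    ring
  · intro hn
    exact absurd (by simp [ha]) hn

end MinimalPeriodic

/-- the least positive `K` such that `k` divides `2 (p - 1) K` -/
theorem exists_order {k : ℕ} (D : ℕ) (hk : 0 < k) : ∃ K, 0 < K ∧ ∀ a, k ∣ D * a ↔ K ∣ a := by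
  obtain ⟨k', d', hcop, hk', hd'⟩ := Nat.exists_coprime k D
  have hg : 0 < k.gcd D := Nat.gcd_pos_of_pos_left D hk
  refine ⟨k', ?_, fun a => ?_⟩
  · rcases Nat.eq_zero_or_pos k' with h0 | h0
    · rw [h0, zero_mul] at hk'
      omega
    · exact h0
  · generalize k.gcd D = g at *
    subst hk' hd'
    rw [show d' * g * a = d' * a * g by ring, Nat.mul_dvd_mul_iff_right hg]
    exact hcop.dvd_mul_left

namespace MinimalPeriodic

variable [hpf : Fact p.Prime] (hp : p ≠ 2) {k : ℕ} {x : A.H} (h : A.MinimalPeriodic k x)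

include hp h

/-- the key lemma: the reduced power `P^i` has no value of the form `x ^ r` -/
theorem P_small {K i nu : ℕ} (hK : ∀ a, k ∣ 2 * (p - 1) * a ↔ K ∣ a)
    (hKle : 2 * (p - 1) * K ≤ (p - 1) * k) (hi : 0 < i) (hnu : K = nu * i) (hnu2 : 2 ≤ nu)
    {d : ℕ} (hd0 : 0 < d) (hdk : d < k) {c : A.H} (hc : c ∈ A.gr d) {r : ℕ}
    (hr : d + 2 * (p - 1) * i = r * k) : A.P i c = 0 := by
  by_contra hne
  have hk := h.pos
  have hp1 := hpf.out.two_le
  have h2k := h.two_k_le
  have hpk : (p - 1) * k + k = p * k := by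
    obtain ⟨q, rfl⟩ : ∃ q, p = q + 1 := ⟨p - 1, by omega⟩
    simp [add_mul]
  have hr0 : 0 < r := by
    rcases Nat.eq_zero_or_pos r with h0 | h0
    · subst h0; omega
    · exact h0
  have h2i : 2 * i ≤ d := by
    by_contra h0
    exact hne (A.P_high i d c hc (by omega))
  have hrp : r < p := by
    have h1 : r * k < p * k := by
      have h2 : 2 * (p - 1) * i ≤ (p - 1) * d := by
        calc 2 * (p - 1) * i = (p - 1) * (2 * i) := by ring
          _ ≤ _ := Nat.mul_le_mul_left _ h2i
      have h3 : (p - 1) * d ≤ (p - 1) * k := Nat.mul_le_mul_left _ hdk.le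
      omega
    exact Nat.lt_of_mul_lt_mul_right h1
  have hm := A.P_mem i d c hc
  rw [hr] at hm
  obtain ⟨t, ht⟩ := h.top hrp hm
  have ht0 : t ≠ 0 := by
    rintro rfl
    exact hne (by rw [ht, zero_smul])
  have hiK : ∀ u, u < nu → u * i < K := fun u hu => by
    rw [hnu]
    exact Nat.mul_lt_mul_of_pos_right hu hi
  have hiK1 : i < K := by simpa using hiK 1 (by omega)
  have hKD : ∀ a, 0 < a → a < K → ¬ k ∣ 2 * (p - 1) * a := fun a ha haK h0 =>
    absurd (Nat.le_of_dvd ha ((hK a).1 h0)) (by omega)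
  have key : ∀ (u f n : ℕ) (cu : A.H) (t' : ZMod p), u + 1 ≤ nu → 0 < f → f < k → cu ∈ A.gr f →
      f + 2 * (p - 1) * (u * i) = n * k → A.P (u * i) cu = t' • x ^ n →
      (d + f + 2 * (p - 1) * ((u + 1) * i) = (r + n) * k) ∧ r + n ≤ p ∧
        A.P ((u + 1) * i) (c * cu) = (t * t') • x ^ (r + n) := by
    intro u f n cu t' hu hf hfk hcu hfn hPu
    have hdeg : d + f + 2 * (p - 1) * ((u + 1) * i) = (r + n) * k := by
      rw [add_mul r n, ← hr, ← hfn]
      ring
    have hrn : r + n ≤ p := by
      have h1 : 2 * (p - 1) * ((u + 1) * i) ≤ 2 * (p - 1) * K := by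
        apply Nat.mul_le_mul_left
        rw [hnu]
        exact Nat.mul_le_mul_right _ hu
      have h2 : (r + n) * k < (p + 1) * k := by
        rw [← hdeg, add_mul p 1, one_mul]
        omega
      have := Nat.lt_of_mul_lt_mul_right h2
      omega
    refine ⟨hdeg, hrn, ?_⟩
    rw [h.P_mul hp hc hcu (a := i) (by rw [add_mul, one_mul]; omega) hrn hdeg, ht,
      show (u + 1) * i - i = u * i by rw [add_mul, one_mul]; omega, hPu, smul_mul_smul_comm, pow_add]
    intro b hb hbi hkb
    have hki : k ∣ d + 2 * (p - 1) * i := hr ▸ Dvd.intro_left r rfl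
    rcases Nat.lt_or_ge b i with hlt | hge
    · have h1 : k ∣ (d + 2 * (p - 1) * b) + 2 * (p - 1) * (i - b) := by
        have : d + 2 * (p - 1) * b + 2 * (p - 1) * (i - b) = d + 2 * (p - 1) * i := by
          rw [add_assoc, ← mul_add, show b + (i - b) = i by omega]
        rwa [this]
      exact hKD (i - b) (by omega) (by omega) ((Nat.dvd_add_right hkb).1 h1)
    · have h1 : k ∣ (d + 2 * (p - 1) * i) + 2 * (p - 1) * (b - i) := by
        have : d + 2 * (p - 1) * i + 2 * (p - 1) * (b - i) = d + 2 * (p - 1) * b := by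
          rw [add_assoc, ← mul_add, show i + (b - i) = b by omega]
        rwa [this]
      have h3 := hiK u (by omega)
      rw [add_mul, one_mul] at hb
      exact hKD (b - i) (by omega) (by omega) ((Nat.dvd_add_right hki).1 h1)
  have chain : ∀ u, 1 ≤ u → u < nu → ∃ (f n : ℕ) (cu : A.H) (t' : ZMod p), 0 < f ∧ f < k ∧
      cu ∈ A.gr f ∧ f + 2 * (p - 1) * (u * i) = n * k ∧ t' ≠ 0 ∧ A.P (u * i) cu = t' • x ^ n := by
    intro u hu
    induction u, hu using Nat.le_induction with
    | base =>
      intro _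
      exact ⟨d, r, c, t, hd0, hdk, hc, by rw [one_mul]; exact hr, ht0, by rw [one_mul]; exact ht⟩
    | succ u hu ih =>
      intro hun
      obtain ⟨f, n, cu, t', hf0, hfk, hcu, hfn, ht', hPu⟩ := ih (by omega)
      obtain ⟨hdeg, hrn, hP⟩ := key u f n cu t' (by omega) hf0 hfk hcu hfn hPu
      have huK := hiK (u + 1) hun
      have hui : 0 < (u + 1) * i := Nat.mul_pos (by omega) hi
      have hndvd : ¬ k ∣ d + f := by
        intro h0
        have h1 : k ∣ (d + f) + 2 * (p - 1) * ((u + 1) * i) := hdeg ▸ Dvd.intro_left _ rfl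
        exact hKD _ hui huK ((Nat.dvd_add_right h0).1 h1)
      rcases lt_trichotomy (d + f) k with hlt | heq | hgt
      · exact ⟨d + f, r + n, c * cu, t * t', by omega, hlt, mul_mem hc hcu, hdeg,
          mul_ne_zero ht0 ht', hP⟩
      · exact absurd (heq ▸ dvd_refl _) hndvd
      · obtain ⟨v, hv, hxv⟩ := h.periodic.1 (d + f - k) (by omega) (c * cu)
          (by rw [show d + f - k + k = d + f by omega]; exact mul_mem hc hcu)
        have hdeg' : d + f - k + 2 * (p - 1) * ((u + 1) * i) = (r + n - 1) * k := by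
          obtain ⟨q, hq⟩ : ∃ q, r + n = q + 1 := ⟨r + n - 1, by omega⟩
          rw [hq, add_mul q 1, one_mul] at hdeg
          rw [hq]
          simp only [Nat.add_sub_cancel]
          omega
        have hrn1 : r + n = (r + n - 1) + 1 := by omega
        refine ⟨d + f - k, r + n - 1, v, t * t', by omega, by omega, hv, hdeg',
          mul_ne_zero ht0 ht', ?_⟩
        rw [← hxv] at hP
        rw [h.P_mul hp h.mem hv (Nat.zero_le _) hrn (by rw [← hdeg]; omega), A.P_zero,
          Nat.sub_zero] at hP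
        · have hm1 := A.P_mem ((u + 1) * i) _ v hv
          rw [hdeg'] at hm1
          apply h.cancel' (i := (r + n - 1) * k) (by rw [← hdeg']; omega) _ hm1
            (Submodule.smul_mem _ _ (pow_mem h.mem _))
          · rw [hP, mul_smul_comm, ← pow_succ', ← hrn1]
          · have := Nat.mul_le_mul_right k hrn
            rw [hrn1, add_mul, one_mul] at this
            exact this
        · intro b hb hb0 hkb
          exact hKD b (by omega) (by omega) ((Nat.dvd_add_right (dvd_refl k)).1 hkb)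
  obtain ⟨f, n, cu, t', hf0, hfk, hcu, hfn, ht', hPu⟩ := chain (nu - 1) (by omega) (by omega)
  obtain ⟨hdeg, hrn, hP⟩ := key (nu - 1) f n cu t' (by omega) hf0 hfk hcu hfn hPu
  rw [show nu - 1 + 1 = nu by omega] at hdeg hP
  have h0 : c * cu = 0 := by
    have h1 : k ∣ d + f := by
      have h2 : k ∣ 2 * (p - 1) * (nu * i) := (hK _).2 (hnu ▸ dvd_refl _)
      have h3 : k ∣ (d + f) + 2 * (p - 1) * (nu * i) := hdeg ▸ Dvd.intro_left _ rfl
      exact (Nat.dvd_add_left h2).1 h3
    obtain ⟨q, hq⟩ := h1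
    have hq1 : q = 1 := by
      rcases Nat.lt_or_ge q 2 with h3 | h3
      · interval_cases q
        · omega
        · rfl
      · have := Nat.mul_le_mul_left k h3
        omega
    rw [hq1, mul_one] at hq
    exact h.prod hp hd0 hf0 hq hc hcu
  rw [h0, P_map_zero] at hP
  exact smul_ne_zero (mul_ne_zero ht0 ht') (h.pow_ne hrn) hP.symm

/-- the reduced power `P^i` vanishes in degree `n * k` -/
theorem P_top {K i nu : ℕ} (hK : ∀ a, k ∣ 2 * (p - 1) * a ↔ K ∣ a)
    (hKle : 2 * (p - 1) * K ≤ (p - 1) * k) (hi : 0 < i) (hnu : K = nu * i) (hnu2 : 2 ≤ nu)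
    {n : ℕ} (hn : n ≤ p) {e : ℕ} {v : A.H} (hv : v ∈ A.gr e)
    (he : e + 2 * (p - 1) * i = n * k) : A.P i v = 0 := by
  have hk := h.pos
  have hp1 := hpf.out.two_le
  have hiK1 : i < K := by
    have : 2 * i ≤ nu * i := Nat.mul_le_mul_right _ hnu2
    omega
  have hKD : ∀ a, 0 < a → a < K → ¬ k ∣ 2 * (p - 1) * a := fun a ha haK h0 =>
    absurd (Nat.le_of_dvd ha ((hK a).1 h0)) (by omega)
  have ee : e / k * k + e % k = e := by rw [mul_comm]; exact Nat.div_add_mod e k
  have le : e % k < k := Nat.mod_lt _ hk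
  have pe : 0 < e % k := by
    rcases Nat.eq_zero_or_pos (e % k) with h0 | h0
    · have h1 : k ∣ e := Nat.dvd_of_mod_eq_zero h0
      have h2 : k ∣ e + 2 * (p - 1) * i := he ▸ Dvd.intro_left _ rfl
      exact absurd ((Nat.dvd_add_right h1).1 h2) (hKD i hi hiK1)
    · exact h0
  have hDi : 0 < 2 * (p - 1) * i := Nat.mul_pos (by omega) hi
  have hnk : n * k ≤ p * k := Nat.mul_le_mul_right k hn
  obtain ⟨c, hc, rfl⟩ := h.divx (e / k) (e % k) (by omega) (z := v) (by rwa [ee])
  rw [h.P_mul hp (pow_mem h.mem _) hc (Nat.zero_le _) hn (by rw [ee]; exact he), Nat.sub_zero,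
    h.P_small hp hK hKle hi hnu hnu2 pe le hc (r := n - e / k), mul_zero]
  · rw [Nat.sub_mul]
    omega
  · intro b hb hb0 hkb
    exact hKD b (by omega) (by omega) ((Nat.dvd_add_right (Dvd.intro_left _ rfl)).1 hkb)

end MinimalPeriodic

end UAlg

end Pool.Agent.Helper55.BQ
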