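import Mathlib

/-!
# Connected unstable algebras over the mod p Steenrod algebra, spherical fibrations

The cohomology algebra `H^*(M; Z_p)` of a connected space `M`, `p` an odd prime, as an abstract
structure: a connected graded-commutative algebra over `Z_p` with the reduced powers `P^i` and the
Bockstein homomorphism; the Wu classes `q_i` of a (`p`-complete, `Z_p`-oriented) spherical
fibration over `M`, for example of an oriented vector bundle, and the class `b` of degree one, as
the classes which describe the reduced powers and the Bockstein homomorphism in the cohomology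
`H^*(M; Z_p) U` of its Thom space. The factorization theorem of Liulevicius, Shimada and
Yamanoshita for Thom spaces is a separate proposition.
-/

set_option autoImplicit false

namespace Pool.Agent.Helper55.BQ

open Finset

universe u v

/-- the coefficient of `P^(i+j-t) P^t` in the Adem relation for `P^i P^j` -/
def ademCoeff (p i j t : ℕ) : ℤ :=
  (-1) ^ (i + t) * ((p - 1) * (j - t) - 1).choose (i - p * t)

/-- A connected unstable algebra over the mod `p` Steenrod algebra, for example the cohomology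
algebra `H = ⨁ H^n(M; Z_p)` of a connected space `M`: a graded-commutative algebra over `Z_p`,
graded by `gr n = H^n(M; Z_p)`, with `gr 0 = Z_p`, with the reduced powers and the Bockstein
homomorphism. -/
structure UAlg (p : ℕ) where
  /-- the underlying algebra -/
  H : Type u
  [ring : Ring H]
  [alg : Algebra (ZMod p) H]
  /-- the classes of degree `n` -/
  gr : ℕ → Submodule (ZMod p) H
  [graded : GradedAlgebra gr]
  /-- the reduced power `P^i` -/
  P : ℕ → H → H
  /-- the Bockstein homomorphism -/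
  bock : H → H
  nontrivial : (1 : H) ≠ 0
  connected : ∀ a ∈ gr 0, ∃ c : ZMod p, a = c • 1
  comm : ∀ i j a b, a ∈ gr i → b ∈ gr j → a * b = (-1) ^ (i * j) * (b * a)
  P_add : ∀ i a b, P i (a + b) = P i a + P i b
  P_mem : ∀ i n a, a ∈ gr n → P i a ∈ gr (n + 2 * (p - 1) * i)
  P_zero : ∀ a, P 0 a = a
  P_self : ∀ n a, a ∈ gr (2 * n) → P n a = a ^ p
  P_high : ∀ i n a, a ∈ gr n → n < 2 * i → P i a = 0
  cartan : ∀ n a b, P n (a * b) = ∑ q ∈ antidiagonal n, P q.1 a * P q.2 b
  adem : ∀ i j a, i < p * j →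
    P i (P j a) = ∑ t ∈ range (i / p + 1), ademCoeff p i j t • P (i + j - t) (P t a)
  bock_add : ∀ a b, bock (a + b) = bock a + bock b
  bock_mem : ∀ n a, a ∈ gr n → bock a ∈ gr (n + 1)
  bock_mul : ∀ n a b, a ∈ gr n → bock (a * b) = bock a * b + (-1) ^ n * (a * bock b)
  /-- the Adem relation for `P^1 β P^i` -/
  adem_bock : ∀ i a, P 1 (bock (P i a)) = i • bock (P (i + 1) a) + P (i + 1) (bock a)

attribute [instance] UAlg.ring UAlg.alg UAlg.graded

namespace UAlg

variable {p : ℕ} (A : UAlg.{u} p)

/-- `y`, of degree `j`, induces periodicity up to degree `c`: multiplication by `y` from degree `i`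
to degree `i + j` is surjective for `0 ≤ i < c - j` and injective for `0 < i ≤ c - j`. -/
def Periodic (j : ℕ) (y : A.H) (c : ℕ) : Prop :=
  (∀ i, i + j < c → ∀ z ∈ A.gr (i + j), ∃ u ∈ A.gr i, y * u = z) ∧
    ∀ i, 0 < i → i + j ≤ c → ∀ u ∈ A.gr i, y * u = 0 → u = 0

/-- `x`, a nonzero class of positive degree `k`, induces periodicity up to degree `p * k` and has
minimal degree: no nonzero class of degree `j`, `0 < j < k`, induces periodicity up to degree
`p * k`. -/
structure MinimalPeriodic (k : ℕ) (x : A.H) : Prop where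
  pos : 0 < k
  mem : x ∈ A.gr k
  ne_zero : x ≠ 0
  periodic : A.Periodic k x (p * k)
  minimal : ∀ j, 0 < j → j < k → ∀ y ∈ A.gr j, y ≠ 0 → ¬ A.Periodic j y (p * k)

/-- the reduced power `P^i (a U) = (thomP q i a) U` in the cohomology of the Thom space of a
spherical fibration with Wu classes `q`, `P^i U = q_i U` -/
def thomP (q : ℕ → A.H) (i : ℕ) (a : A.H) : A.H :=
  ∑ s ∈ antidiagonal i, A.P s.1 a * q s.2

/-- the value `β (a U) = (thomB b n a) U` of the Bockstein homomorphism, `a` of degree `n`, in the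
cohomology of the Thom space of a spherical fibration with `β U = b U` -/
def thomB (b : A.H) (n : ℕ) (a : A.H) : A.H :=
  A.bock a + (-1) ^ n * (a * b)

/-- `z`, of degree `n`, is the sum of a value `B u` and of values `Q^r v` with `0 < r < l`; here
`u` has degree `n - 1` and `v` has degree `n - 2(p - 1)r` (and is zero if this is negative). -/
def Decomposes (B : A.H → A.H) (Q : ℕ → A.H → A.H) (l n : ℕ) (z : A.H) : Prop :=
  ∃ (u : A.H) (v : ℕ → A.H), (u = 0 ∨ ∃ d, d + 1 = n ∧ u ∈ A.gr d) ∧
    (∀ r, v r = 0 ∨ ∃ d, d + 2 * (p - 1) * r = n ∧ v r ∈ A.gr d) ∧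
    z = B u + ∑ r ∈ Ioo 0 l, Q r (v r)

/-- the first part of the theorem: `P^i v = 0` for `0 < i < p^s` and `v` of degree
`nk - 2(p-1)i`, `n ≤ p`; `P^(p^s) x` is a nonzero multiple of a power of `x`; if `s > 0`, a nonzero
multiple of `x^n`, `n ≤ p`, is not a sum of values `β u` and `P^r v`, `0 < r < p^s` -/
def PrimaryPart (k lam s : ℕ) (x : A.H) : Prop :=
  (∀ i, 0 < i → i < p ^ s → ∀ n ≤ p, ∀ d, d + 2 * (p - 1) * i = n * k →
      ∀ v ∈ A.gr d, A.P i v = 0) ∧
    (∃ c : ZMod p, c ≠ 0 ∧ A.P (p ^ s) x = c • x ^ ((p - 1) / lam + 1)) ∧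
    (0 < s → ∀ n ≤ p, ∀ c : ZMod p, c ≠ 0 →
      c • x ^ n ≠ 0 ∧ ¬ A.Decomposes A.bock A.P (p ^ s) (n * k) (c • x ^ n))

end UAlg

/-- The properties of the mod `p` cohomology of connected spaces (finite dimensional CW complexes)
and of spherical fibrations over them which we use. -/
structure Theory (p : ℕ) where
  /-- connected finite dimensional CW complexes -/
  Space : Type v
  /-- their mod `p` cohomology algebras -/
  coh : Space → UAlg.{u} p
  /-- `p`-complete spherical fibrations with a mod `p` Thom class, for example the oriented real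
  vector bundles -/
  Bundle : Space → Type u
  /-- the rank: the fibre is a `p`-complete sphere of this dimension -/
  rank : ∀ {M}, Bundle M → ℕ
  /-- the Wu classes, given by `P^i U = q_i U` for the Thom class `U` -/
  wu : ∀ {M}, Bundle M → ℕ → (coh M).H
  wu_mem : ∀ {M} (E : Bundle M) i, wu E i ∈ (coh M).gr (2 * (p - 1) * i)
  wu_zero : ∀ {M} (E : Bundle M), wu E 0 = 1
  wu_high : ∀ {M} (E : Bundle M) i, rank E < 2 * i → wu E i = 0
  /-- the Adem relations for the Thom class -/
  wu_adem : ∀ {M} (E : Bundle M) i j, i < p * j →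
    (coh M).thomP (wu E) i (wu E j) =
      ∑ t ∈ range (i / p + 1), ademCoeff p i j t • (coh M).thomP (wu E) (i + j - t) (wu E t)
  /-- the class `b` given by `β U = b U`, which is zero for an oriented vector bundle -/
  bw : ∀ {M}, Bundle M → (coh M).H
  bw_mem : ∀ {M} (E : Bundle M), bw E ∈ (coh M).gr 1
  /-- the zero bundle -/
  zero : ∀ M, Bundle M
  rank_zero : ∀ M, rank (zero M) = 0
  bw_zero : ∀ M, bw (zero M) = 0
  /-- the Whitney sum -/
  add : ∀ {M}, Bundle M → Bundle M → Bundle M
  rank_add : ∀ {M} (E F : Bundle M), rank (add E F) = rank E + rank F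
  wu_add : ∀ {M} (E F : Bundle M) n,
    wu (add E F) n = ∑ q ∈ antidiagonal n, wu E q.1 * wu F q.2
  bw_add : ∀ {M} (E F : Bundle M), bw (add E F) = bw E + bw F
  /-- every spherical fibration has a complement -/
  compl : ∀ {M} (E : Bundle M), ∃ F, bw (add E F) = 0 ∧ ∀ n, 0 < n → wu (add E F) n = 0
  /-- the reductions of the integral classes of degree `n` -/
  integral : ∀ M, ℕ → Set (coh M).H
  /-- the spherical fibrations induced from the one over the circle with a monodromy of degree
  `1 + p` -/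
  circle : ∀ {M}, ∀ t ∈ integral M 1, ∃ E : Bundle M, bw E = t ∧ ∀ n, 0 < n → wu E n = 0
  /-- complex line bundles -/
  line : ∀ {M}, ∀ t ∈ integral M 2, ∃ E : Bundle M, rank E = 2 ∧ bw E = 0 ∧ wu E 1 = t ^ (p - 1)

namespace Theory

variable {p : ℕ} (T : Theory.{u, v} p) {M : T.Space}

/-- in the Thom space of `F`, the class `z U` of degree `n` (relative to `U`) is the sum of a value
`β (u U)` and of values `P^r (v U)` with `0 < r < l` -/
def Decomposes (F : T.Bundle M) (l n : ℕ) (z : (T.coh M).H) : Prop :=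
  (T.coh M).Decomposes ((T.coh M).thomB (T.bw F) (n - 1)) ((T.coh M).thomP (T.wu F)) l n z

/-- The odd primary analogue of Adams' theorem (Liulevicius, Shimada and Yamanoshita), in the Thom
space of a spherical fibration: let `s > 0`, `β (a U) = 0` and `P^(p^j) (a U) = 0` for all
`j < s`. Then `P^(p^s) (a U)` is a sum of values `β (u U)` and `P^r (v U)`, `0 < r < p^s`. -/
def Liulevicius : Prop :=
  ∀ (M : T.Space) (E : T.Bundle M) (s : ℕ), 0 < s → ∀ n, ∀ a ∈ (T.coh M).gr n,
    (T.coh M).thomB (T.bw E) n a = 0 → (∀ j < s, (T.coh M).thomP (T.wu E) (p ^ j) a = 0) →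
    T.Decomposes E (p ^ s) (n + 2 * (p - 1) * p ^ s) ((T.coh M).thomP (T.wu E) (p ^ s) a)

/-- the Wu classes of `E` describe the reduced powers `P^(p^j) x` for `j < s`, but not for
`j = s` -/
def Describes (E : T.Bundle M) (s : ℕ) (x : (T.coh M).H) : Prop :=
  (∀ j < s, (T.coh M).P (p ^ j) x = x * T.wu E (p ^ j)) ∧
    (T.coh M).P (p ^ s) x ≠ x * T.wu E (p ^ s)

/-- the second part of the theorem: the class `x U`, `x` of degree `k`, in the Thom space of a
complement `F` of `E` -/
def ThomPart (k s : ℕ) (x : (T.coh M).H) : Prop :=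
  ∀ E F : T.Bundle M, T.Describes E s x → (∀ n, 0 < n → T.wu (T.add E F) n = 0) →
    (∀ i, 0 < i → i < p ^ s → (T.coh M).thomP (T.wu F) i x = 0) ∧
      (T.coh M).thomP (T.wu F) (p ^ s) x ≠ 0 ∧
      ¬ T.Decomposes F (p ^ s) (k + 2 * (p - 1) * p ^ s) ((T.coh M).thomP (T.wu F) (p ^ s) x)

/-- the third part of the theorem: three conditions for `s = 0` -/
def Answers (s : ℕ) (x : (T.coh M).H) : Prop :=
  (∀ E : T.Bundle M, (T.coh M).bock x = x * T.bw E → T.Describes E s x → s = 0) ∧
    (∀ b ∈ T.integral M 1, (T.coh M).bock x = x * b → ∀ n < p, ∀ t : Fin n → (T.coh M).H,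
      (∀ i, t i ∈ T.integral M 2) → (T.coh M).P 1 x = x * ∑ i, t i ^ (p - 1) →
      (∀ j, 0 < j → j < s → (T.coh M).P (p ^ j) x = 0) → s = 0) ∧
    ((∀ b ∈ (T.coh M).gr 1, b ∈ T.integral M 1) →
      (∀ j < s, ∀ b ∈ (T.coh M).gr (2 * (p - 1) * p ^ j), b = 0) → s = 0)

end Theory

end Pool.Agent.Helper55.BQ
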