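import Pool.Agent.Helper55.BQ.Adem

set_option autoImplicit false

namespace Pool.Agent.Helper55.BQ

open Finset

universe u

namespace UAlg

variable {p : ℕ} {A : UAlg.{u} p}

namespace MinimalPeriodic

variable [hpf : Fact p.Prime] (hp : p ≠ 2) {k : ℕ} {x : A.H} (h : A.MinimalPeriodic k x)

include hp h

/-- Kennard's theorem, with the vanishing of the reduced powers which proves it -/
theorem kennard : ∃ lam s, lam ∣ p - 1 ∧ 0 < lam ∧ k = 2 * lam * p ^ s ∧
    ∀ j < s, ∀ n ≤ p, A.Good (n * k) (p ^ j) := by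
  have hk := h.pos
  have hp1 := hpf.out.two_le
  obtain ⟨l, hl⟩ := h.even hp
  obtain ⟨s, lam, hlam, hls⟩ := Nat.exists_eq_pow_mul_and_not_dvd (n := l) (by omega) p
    hpf.out.ne_one
  obtain ⟨K, hK0, hK⟩ := exists_order (k := k) (2 * (p - 1)) hk
  have hkl : 2 * (p - 1) * l = (p - 1) * k := by rw [hl]; ring
  have hKl : K ∣ l := (hK l).1 (by rw [hkl]; exact Dvd.intro_left _ rfl)
  have hKle : 2 * (p - 1) * K ≤ (p - 1) * k := by
    rw [← hkl]
    exact Nat.mul_le_mul_left _ (Nat.le_of_dvd (by omega) hKl)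
  have hcop : Nat.Coprime (p ^ s) (p - 1) := by
    apply Nat.Coprime.pow_left
    rw [Nat.Prime.coprime_iff_not_dvd hpf.out]
    intro h0
    exact absurd (Nat.le_of_dvd (by omega) h0) (by omega)
  have hdiv : ∀ a, k ∣ 2 * (p - 1) * a ↔ p ^ s * lam ∣ (p - 1) * a := by
    intro a
    rw [← hls, hl, show l + l = 2 * l by ring, mul_assoc, Nat.mul_dvd_mul_iff_left (by norm_num)]
  have hsK : p ^ s ∣ K := by
    have h1 : p ^ s * lam ∣ (p - 1) * K := (hdiv K).1 ((hK K).2 dvd_rfl)
    exact hcop.dvd_of_dvd_mul_left ((dvd_mul_right _ _).trans h1)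
  have hgood : ∀ j, j ≤ s → K ≠ p ^ j → ∀ n ≤ p, A.Good (n * k) (p ^ j) := by
    intro j hj hne n hn e he v hv
    obtain ⟨nu, hnu⟩ := (pow_dvd_pow p hj).trans hsK
    have hnu2 : 2 ≤ nu := by
      by_contra h0
      have h1 : nu < 2 := by omega
      interval_cases nu
      · omega
      · exact hne (by rw [hnu, mul_one])
    exact h.P_top hp hK hKle (Nat.pow_pos (by omega)) (by rw [hnu, mul_comm]) hnu2 hn hv he
  have hKs : K = p ^ s := by
    by_contra hne
    have h1 : A.Good (p * k) l := by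
      apply good_of l (by omega)
      intro j hj
      have hjs : j ≤ s := by
        by_contra hjs
        apply hlam
        have h2 : p ^ (s + 1) ∣ p ^ s * lam := by
          rw [← hls]
          exact (pow_dvd_pow p (by omega)).trans hj
        rw [pow_succ] at h2
        exact (Nat.mul_dvd_mul_iff_left (Nat.pow_pos (by omega))).1 h2
      apply hgood j hjs _ p le_rfl
      rintro rfl
      rcases Nat.lt_or_ge j s with h3 | h3
      · have h4 := Nat.le_of_dvd (Nat.pow_pos (by omega)) hsK
        have h5 : p ^ j < p ^ s := Nat.pow_lt_pow_right (by omega) h3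
        omega
      · exact hne (by rw [le_antisymm hjs h3])
    have h2 := h1 k (by
      rw [hkl]
      obtain ⟨q, rfl⟩ : ∃ q, p = q + 1 := ⟨p - 1, by omega⟩
      simp only [Nat.add_sub_cancel]
      ring) x h.mem
    rw [A.P_self l x (by rw [show 2 * l = k by omega]; exact h.mem)] at h2
    exact h.pow_ne le_rfl h2
  have hlam0 : 0 < lam := by
    rcases Nat.eq_zero_or_pos lam with h0 | h0
    · exact absurd (h0 ▸ dvd_zero p) hlam
    · exact h0
  refine ⟨lam, s, ?_, hlam0, by rw [hl, hls]; ring, ?_⟩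
  · have h1 : p ^ s * lam ∣ (p - 1) * p ^ s := (hdiv _).1 ((hK _).2 (hKs ▸ dvd_rfl))
    rw [mul_comm (p - 1)] at h1
    exact (Nat.mul_dvd_mul_iff_left (Nat.pow_pos (by omega))).1 h1
  · intro j hj
    apply hgood j hj.le
    rw [hKs]
    intro h0
    have := Nat.pow_right_injective hp1 h0
    omega

/-- the reduced powers `P^r`, `0 < r < p^s`, vanish in degree `n * k` -/
theorem good_low {s : ℕ} (hs : ∀ j < s, ∀ n ≤ p, A.Good (n * k) (p ^ j)) {r : ℕ} (hr : 0 < r)
    (hrs : r < p ^ s) {n : ℕ} (hn : n ≤ p) : A.Good (n * k) r := by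
  apply good_of r hr
  intro j hj
  apply hs j _ n hn
  by_contra h0
  have h1 := Nat.le_of_dvd hr hj
  have h2 : p ^ s ≤ p ^ j := Nat.pow_le_pow_right hpf.out.pos (by omega)
  omega

/-- the Bockstein homomorphism vanishes in degree `n * k` -/
theorem bock_zero {lam s : ℕ} (hlam0 : 0 < lam) (hk : k = 2 * lam * p ^ s) (hs0 : 0 < s)
    (hs : ∀ j < s, ∀ n ≤ p, A.Good (n * k) (p ^ j)) {n : ℕ} (hn : n ≤ p) {e : ℕ}
    (he : e + 1 = n * k) {v : A.H} (hv : v ∈ A.gr e) : A.bock v = 0 := by
  have hp1 := hpf.out.two_le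
  have hps : p ≤ p ^ s := Nat.le_self_pow hs0.ne' p
  obtain ⟨l, hl⟩ : ∃ l, l = lam * p ^ s := ⟨_, rfl⟩
  have hl2 : 2 ≤ l := by
    have := Nat.mul_le_mul_right (p ^ s) (show 1 ≤ lam by omega)
    omega
  have hkl : k = 2 * l := by rw [hk, hl, mul_assoc]
  have hn0 : 0 < n := by
    rcases Nat.eq_zero_or_pos n with h0 | h0
    · subst h0; omega
    · exact h0
  obtain ⟨m, rfl⟩ : ∃ m, n = m + 1 := ⟨n - 1, by omega⟩
  have hnk : (m + 1) * k ≤ p * k := Nat.mul_le_mul_right k hn
  rw [add_mul, one_mul] at he hnk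
  obtain ⟨c, hc, rfl⟩ := h.divx m (k - 1) (by omega) (z := v)
    (by rwa [show m * k + (k - 1) = e by omega])
  have hbc : A.bock c = 0 := by
    have hmem := A.bock_mem _ c hc
    rw [show k - 1 + 1 = k by omega] at hmem
    obtain ⟨t, ht⟩ := h.top (n := 1) hpf.out.one_lt (by simpa using hmem)
    rw [pow_one] at ht
    have hlk : l - 1 + 1 = l := by omega
    have h1 := A.adem_bock (l - 1) c
    rw [hlk, A.P_high l (k - 1) c hc (by omega), bock_map_zero, smul_zero, zero_add, ht, P_map_smul,
      A.P_self l x (by rw [← hkl]; exact h.mem)] at h1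
    have h2 : A.Good (p * k) 1 := by simpa using hs 0 hs0 p le_rfl
    have h3 := A.bock_mem _ _ (A.P_mem (l - 1) (k - 1) c hc)
    have h4 := h2 _ ?_ _ h3
    · rw [h4] at h1
      have ht0 : t = 0 := (smul_eq_zero.1 h1.symm).resolve_right (h.pow_ne le_rfl)
      rw [ht, ht0, zero_smul]
    · have h5 : 2 * (p - 1) * (l - 1) + 2 * (p - 1) * 1 = (p - 1) * k := by
        rw [← mul_add, show l - 1 + 1 = l by omega, hkl]
        ring
      have h6 : (p - 1) * k + k = p * k := by
        obtain ⟨q, rfl⟩ : ∃ q, p = q + 1 := ⟨p - 1, by omega⟩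
        simp [add_mul]
      omega
  rw [A.bock_mul (m * k) _ _ (pow_mem h.mem m), hbc, mul_zero, mul_zero, add_zero]
  apply h.prod' hp hn (a := m * k + 1) (b := k - 1) _ _ (A.bock_mem _ _ (pow_mem h.mem m)) hc
  · rw [add_mul, one_mul]
    omega
  · intro h0
    have h1 : k ∣ 1 := (Nat.dvd_add_right (Dvd.intro_left _ rfl)).1 h0
    have := Nat.le_of_dvd (by omega) h1
    omega

/-- the first reduced power which does not vanish on `x` -/
theorem P_pow_x {lam s : ℕ} (hlam : lam ∣ p - 1) (hlam0 : 0 < lam) (hk : k = 2 * lam * p ^ s)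
    (hs : ∀ j < s, ∀ n ≤ p, A.Good (n * k) (p ^ j)) :
    ∃ c : ZMod p, c ≠ 0 ∧ A.P (p ^ s) x = c • x ^ ((p - 1) / lam + 1) := by
  have hp1 := hpf.out.two_le
  obtain ⟨m, hm⟩ := hlam
  have hml : (p - 1) / lam = m := by rw [hm, Nat.mul_div_cancel_left _ hlam0]
  have hm0 : 0 < m := by
    rcases Nat.eq_zero_or_pos m with h0 | h0
    · subst h0; omega
    · exact h0
  have hmp : m ≤ p - 1 := by
    rw [hm]
    exact Nat.le_mul_of_pos_left _ hlam0
  have hv : 0 < p ^ s := Nat.pow_pos (by omega)
  obtain ⟨l, hl⟩ : ∃ l, l = lam * p ^ s := ⟨_, rfl⟩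
  have hkl : k = 2 * l := by rw [hk, hl, mul_assoc]
  have hmem := h.mem
  have hself : A.P l x = x ^ p := A.P_self l x (by rw [← hkl]; exact hmem)
  have hDk : 2 * (p - 1) * p ^ s = m * k := by rw [hm, hk]; ring
  have hpk : (p - 1) * k + k = p * k := by
    obtain ⟨q, rfl⟩ : ∃ q, p = q + 1 := ⟨p - 1, by omega⟩
    simp [add_mul]
  have hnd : ∀ b, 0 < b → b < p ^ s → ¬ k ∣ 2 * (p - 1) * b := by
    intro b hb hbs h0
    have h1 : p ^ s ∣ (p - 1) * b := by
      have h2 : 2 * p ^ s ∣ 2 * ((p - 1) * b) := by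
        rw [← mul_assoc]
        exact (Dvd.intro_left lam (by rw [hk]; ring)).trans h0
      exact (Nat.mul_dvd_mul_iff_left (by norm_num)).1 h2
    have hcop : Nat.Coprime (p ^ s) (p - 1) := by
      apply Nat.Coprime.pow_left
      rw [Nat.Prime.coprime_iff_not_dvd hpf.out]
      intro h0
      exact absurd (Nat.le_of_dvd (by omega) h0) (by omega)
    exact absurd (Nat.le_of_dvd hb (hcop.dvd_of_dvd_mul_left h1)) (by omega)
  have hne : A.P (p ^ s) x ≠ 0 := by
    intro h0
    have hpow : ∀ n, n + m ≤ p → A.P (p ^ s) (x ^ n) = 0 := by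
      intro n
      induction n with
      | zero =>
        intro _
        rw [pow_zero]
        exact A.P_high _ 0 _ one_mem (by omega)
      | succ n ih =>
        intro hnm
        rw [pow_succ', A.cartan]
        apply Finset.sum_eq_zero
        rintro ⟨b, c⟩ hbc
        rw [Finset.HasAntidiagonal.mem_antidiagonal] at hbc
        simp only at hbc ⊢
        rcases Nat.eq_zero_or_pos b with hb | hb
        · subst hb
          rw [show c = p ^ s by omega, ih (by omega), mul_zero]
        · rcases Nat.eq_zero_or_pos c with hc | hc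
          · subst hc
            rw [show b = p ^ s by omega, h0, zero_mul]
          · apply h.prod' hp hnm (a := k + 2 * (p - 1) * b) (b := n * k + 2 * (p - 1) * c) _ _
              (A.P_mem b k x hmem) (A.P_mem c _ _ (pow_mem hmem n))
            · have : 2 * (p - 1) * b + 2 * (p - 1) * c = m * k := by rw [← mul_add, hbc, hDk]
              rw [add_mul, add_mul, one_mul]
              omega
            · intro h1
              exact hnd b hb (by omega) ((Nat.dvd_add_right dvd_rfl).1 h1)
    have hgs : A.Good (p * k) (p ^ s) := by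
      intro e he v hv
      have he' : e = (p - m) * k := by
        rw [Nat.sub_mul, ← hDk]
        omega
      obtain ⟨t, rfl⟩ := h.top (n := p - m) (by omega) (z := v) (by rw [← he']; exact hv)
      rw [P_map_smul, hpow (p - m) (by omega), smul_zero]
    have hgl : A.Good (p * k) l := by
      apply good_of l (by rw [hl]; exact Nat.mul_pos hlam0 hv)
      intro j hj
      rcases lt_trichotomy j s with hjs | hjs | hjs
      · exact hs j hjs p le_rfl
      · rw [hjs]; exact hgs
      · exfalso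
        have h1 : p ^ (s + 1) ∣ lam * p ^ s := by
          rw [← hl]
          exact (pow_dvd_pow p (by omega)).trans hj
        rw [pow_succ, mul_comm lam] at h1
        have h2 : p ∣ lam := (Nat.mul_dvd_mul_iff_left hv).1 h1
        have h3 := Nat.le_of_dvd hlam0 h2
        have h4 : lam ≤ p - 1 := by
          rw [hm]
          exact Nat.le_mul_of_pos_right _ hm0
        omega
    have h1 := hgl k (by
      have h2 : 2 * (p - 1) * l = (p - 1) * k := by rw [hkl]; ring
      omega) x hmem
    rw [hself] at h1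
    exact h.pow_ne le_rfl h1
  rw [hml]
  have hmem' := A.P_mem (p ^ s) k x hmem
  rw [hDk, show k + m * k = (m + 1) * k by ring] at hmem'
  rcases Nat.lt_or_ge (m + 1) p with hlt | hge
  · obtain ⟨c, hc⟩ := h.top hlt hmem'
    refine ⟨c, ?_, hc⟩
    rintro rfl
    exact hne (by rw [hc, zero_smul])
  · have hm1 : m + 1 = p := by omega
    have hlam1 : lam = 1 := by
      have h2 : lam * m = 1 * m := by rw [← hm, one_mul]; omega
      exact Nat.eq_of_mul_eq_mul_right hm0 h2
    refine ⟨1, one_ne_zero, ?_⟩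
    rw [one_smul, hm1, ← hself, hl, hlam1, one_mul]

end MinimalPeriodic

end UAlg

end Pool.Agent.Helper55.BQ
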