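import Pool.Agent.Helper55.BQ.Kennard

set_option autoImplicit false

namespace Pool.Agent.Helper55.BQ

open Finset

universe u v

namespace UAlg

variable {p : ℕ} {A : UAlg.{u} p}

/-- the total reduced power -/
noncomputable def tot (a : A.H) : PowerSeries A.H := PowerSeries.mk fun i => A.P i a

theorem tot_mul (a b : A.H) : tot (a * b) = tot a * tot b := by
  ext n
  rw [tot, PowerSeries.coeff_mk, A.cartan, PowerSeries.coeff_mul]
  simp [tot]

theorem thomP_eq (q : ℕ → A.H) (i : ℕ) (a : A.H) :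
    A.thomP q i a = PowerSeries.coeff i (tot a * PowerSeries.mk q) := by
  rw [PowerSeries.coeff_mul]
  simp [tot, thomP]

theorem thomP_mul (q : ℕ → A.H) (i : ℕ) (a x : A.H) :
    A.thomP q i (a * x) = ∑ s ∈ antidiagonal i, A.P s.1 a * A.thomP q s.2 x := by
  rw [thomP_eq, tot_mul, mul_assoc, PowerSeries.coeff_mul]
  simp [thomP_eq, tot]

theorem P_one {i : ℕ} (hi : 0 < i) : A.P i 1 = 0 :=
  A.P_high i 0 1 one_mem (by omega)

theorem thomP_one (q : ℕ → A.H) (i : ℕ) : A.thomP q i 1 = q i := by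
  rw [thomP, Finset.sum_eq_single (0, i)]
  · rw [A.P_zero, one_mul]
  · rintro ⟨b, c⟩ hbc hne
    rw [Finset.HasAntidiagonal.mem_antidiagonal] at hbc
    simp only [ne_eq, Prod.mk.injEq, not_and] at hne hbc ⊢
    have hb : 0 < b := by
      rcases Nat.eq_zero_or_pos b with h0 | h0
      · exact absurd (by omega) (hne h0)
      · exact h0
    rw [P_one hb, zero_mul]
  · intro hn
    exact absurd (by simp) hn

/-- the powers `P^a x`, `a < p^s`, are determined by those with `a` a power of `p` -/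
theorem wu_of_pow [hpf : Fact p.Prime] {s : ℕ} {x : A.H} {q : ℕ → A.H}
    (hmem : ∀ i, q i ∈ A.gr (2 * (p - 1) * i)) (hq0 : q 0 = 1)
    (hadem : ∀ i j, i < p * j → A.thomP q i (q j) = ∑ t ∈ range (i / p + 1),
        ademCoeff p i j t • A.thomP q (i + j - t) (q t))
    (hs : ∀ j < s, A.P (p ^ j) x = x * q (p ^ j)) :
    ∀ a, a < p ^ s → A.P a x = x * q a := by
  have hp := hpf.out.two_le
  have hc : ∀ i (b : A.H), q i * b = b * q i := fun i b =>
    center_of_even (by rw [mul_assoc]; exact even_two_mul _) (hmem i) b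
  intro a
  induction a using Nat.strong_induction_on with
  | _ a ih =>
    intro hak
    rcases Nat.eq_zero_or_pos a with h0 | h0
    · subst h0
      rw [A.P_zero, hq0, mul_one]
    by_cases hpow : ∃ j, a = p ^ j
    · obtain ⟨j, rfl⟩ := hpow
      exact hs j ((Nat.pow_lt_pow_iff_right (by omega)).1 hak)
    push Not at hpow
    obtain ⟨v, a, rfl, ha, ha2⟩ := exists_dec h0 hpow
    have hv : 0 < p ^ v := Nat.pow_pos (by omega)
    have h2 : 2 * p ^ v ≤ p ^ v * a := by
      rw [mul_comm]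
      exact Nat.mul_le_mul_left _ ha2
    have hdiv : p ^ v / p < p ^ v := Nat.div_lt_self hv (by omega)
    have key : ∀ r j, r < p ^ v * a → j < p ^ v * a → A.P r (A.P j x) = x * A.thomP q r (q j) := by
      intro r j hr hj
      rw [ih j hj (by omega), A.cartan, thomP, Finset.mul_sum]
      rw [← Finset.Nat.sum_antidiagonal_swap]
      apply Finset.sum_congr rfl
      rintro ⟨b, c⟩ hbc
      rw [Finset.HasAntidiagonal.mem_antidiagonal] at hbc
      simp only at hbc
      simp only [Prod.swap_prod_mk]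
      rw [ih c (by omega) (by omega), mul_assoc, hc c]
    obtain ⟨c, g, hc0, h1, h3⟩ := P_eq (A := A) (v := v) ha ha2
    have h4 := h1 x
    have h5 := h3 q hadem hq0
    rw [thomP_one] at h5
    have h6 : c • (A.P (p ^ v * a) x - x * q (p ^ v * a)) = 0 := by
      rw [smul_sub, h4, ← mul_smul_comm, h5, mul_sub, Finset.mul_sum, key _ _ (by omega) (by omega),
        sub_eq_zero]
      congr 1
      apply Finset.sum_congr rfl
      intro t ht
      rw [mem_range] at ht
      rw [key _ _ (by omega) (by omega), mul_smul_comm]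
    exact sub_eq_zero.1 ((smul_eq_zero.1 h6).resolve_left hc0)

theorem MinimalPeriodic.not_decomposes [hpf : Fact p.Prime] (hp : p ≠ 2) {k : ℕ} {x : A.H}
    (h : A.MinimalPeriodic k x) {lam s : ℕ} (hlam0 : 0 < lam) (hk : k = 2 * lam * p ^ s)
    (hs0 : 0 < s) (hs : ∀ j < s, ∀ n ≤ p, A.Good (n * k) (p ^ j)) {n : ℕ} (hn : n ≤ p)
    {z : A.H} (hz : z ≠ 0) : ¬ A.Decomposes A.bock A.P (p ^ s) (n * k) z := by
  rintro ⟨u, v, hu, hv, hsum⟩
  apply hz
  have h1 : A.bock u = 0 := by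
    rcases hu with rfl | ⟨d, hd, hud⟩
    · exact bock_map_zero
    · exact h.bock_zero hp hlam0 hk hs0 hs hn hd hud
  rw [hsum, h1, zero_add]
  apply Finset.sum_eq_zero
  intro r hr
  rw [mem_Ioo] at hr
  rcases hv r with h0 | ⟨d, hd, hvd⟩
  · rw [h0, P_map_zero]
  · exact h.good_low hp hs hr.1 hr.2 hn d hd _ hvd

end UAlg

namespace Theory

variable {p : ℕ} [hpf : Fact p.Prime] (hp : p ≠ 2) {T : Theory.{u, v} p} {M : T.Space}

include hp in
/-- the class `x U` in the Thom space of a complement `F` of a vector bundle `E` whose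
Wu classes describe the reduced powers of `x` -/
theorem thom {k : ℕ} {x : (T.coh M).H} (h : (T.coh M).MinimalPeriodic k x)
    {lam s : ℕ} (hlam : lam ∣ p - 1) (hlam0 : 0 < lam) (hk : k = 2 * lam * p ^ s) (hs0 : 0 < s)
    (hs : ∀ j < s, ∀ n ≤ p, (T.coh M).Good (n * k) (p ^ j))
    (E F : T.Bundle M) (hEx : T.Describes E s x)
    (hF : ∀ n, 0 < n → T.wu (T.add E F) n = 0) :
    (∀ i, 0 < i → i < p ^ s → (T.coh M).thomP (T.wu F) i x = 0) ∧
      (T.coh M).thomP (T.wu F) (p ^ s) x ≠ 0 ∧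
      ¬ T.Decomposes F (p ^ s) (k + 2 * (p - 1) * p ^ s)
        ((T.coh M).thomP (T.wu F) (p ^ s) x) := by
  obtain ⟨hE, hne⟩ := hEx
  have hp1 := hpf.out.two_le
  have hv : 0 < p ^ s := Nat.pow_pos (by omega)
  have hP : ∀ a < p ^ s, (T.coh M).P a x = x * T.wu E a :=
    UAlg.wu_of_pow (T.wu_mem E) (T.wu_zero E) (T.wu_adem E) hE
  have hlow : ∀ i, 0 < i → i < p ^ s → (T.coh M).thomP (T.wu F) i x = 0 := by
    intro i hi hik
    have : (T.coh M).thomP (T.wu F) i x = x * T.wu (T.add E F) i := by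
      rw [T.wu_add, UAlg.thomP, Finset.mul_sum]
      apply Finset.sum_congr rfl
      rintro ⟨b, c⟩ hbc
      rw [Finset.HasAntidiagonal.mem_antidiagonal] at hbc
      simp only at hbc ⊢
      rw [hP b (by omega), mul_assoc]
    rw [this, hF i hi, mul_zero]
  have htop : (T.coh M).thomP (T.wu F) (p ^ s) x =
      (T.coh M).P (p ^ s) x - x * T.wu E (p ^ s) := by
    have hmem : (p ^ s, 0) ∈ antidiagonal (p ^ s) := by simp
    have h1 := T.wu_add E F (p ^ s)
    rw [hF _ hv, ← Finset.add_sum_erase _ _ hmem] at h1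
    simp only [T.wu_zero, mul_one] at h1
    rw [UAlg.thomP, ← Finset.add_sum_erase _ _ hmem]
    simp only [T.wu_zero, mul_one]
    have h2 : ∑ q ∈ (antidiagonal (p ^ s)).erase (p ^ s, 0), (T.coh M).P q.1 x * T.wu F q.2 =
        x * ∑ q ∈ (antidiagonal (p ^ s)).erase (p ^ s, 0), T.wu E q.1 * T.wu F q.2 := by
      rw [Finset.mul_sum]
      apply Finset.sum_congr rfl
      rintro ⟨b, c⟩ hbc
      simp only [mem_erase, Finset.HasAntidiagonal.mem_antidiagonal, ne_eq, Prod.mk.injEq] at hbc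
      simp only
      rw [hP b (by omega), mul_assoc]
    rw [h2, eq_neg_of_add_eq_zero_right h1.symm, mul_neg, sub_eq_add_neg]
  have htop0 : (T.coh M).thomP (T.wu F) (p ^ s) x ≠ 0 := by
    rw [htop]
    exact sub_ne_zero.2 hne
  refine ⟨hlow, htop0, ?_⟩
  obtain ⟨m, hm⟩ := hlam
  have hm0 : 0 < m := by
    rcases Nat.eq_zero_or_pos m with h0 | h0
    · subst h0; omega
    · exact h0
  have hmp : m ≤ p - 1 := by
    rw [hm]
    exact Nat.le_mul_of_pos_left _ hlam0
  have hDk : 2 * (p - 1) * p ^ s = m * k := by rw [hm, hk]; ring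
  have hmk : m * k + k ≤ p * k := by
    have h1 := Nat.mul_le_mul_right k (show m + 1 ≤ p by omega)
    rwa [add_mul, one_mul] at h1
  rintro ⟨u, v, hu, hvr, hsum⟩
  apply htop0
  have h1 : (T.coh M).thomB (T.bw F) (k + 2 * (p - 1) * p ^ s - 1) u = 0 := by
    rcases hu with rfl | ⟨d, hd, hud⟩
    · simp [UAlg.thomB, UAlg.bock_map_zero]
    · have hd' : d + 1 = (m + 1) * k := by rw [hd, hDk, add_mul, one_mul, add_comm]
      have h2 : u * T.bw F = 0 := by
        apply h.prod' hp (n := m + 1) (by omega) hd' _ hud (T.bw_mem F)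
        intro h0
        have h3 : k ∣ d + 1 := hd' ▸ Dvd.intro_left _ rfl
        have h4 := Nat.le_of_dvd (by omega) ((Nat.dvd_add_right h0).1 h3)
        have h5 := h.pos
        obtain ⟨l, hl⟩ := h.even hp
        omega
      rw [UAlg.thomB, h2, h.bock_zero hp hlam0 hk hs0 hs (n := m + 1) (by omega) hd' hud, mul_zero,
        add_zero]
  rw [hsum, h1, zero_add]
  apply Finset.sum_eq_zero
  intro r hr
  rw [mem_Ioo] at hr
  rcases hvr r with h0 | ⟨d, hd, hvd⟩
  · rw [h0, UAlg.thomP]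
    simp [UAlg.P_map_zero]
  have hDr : 2 * (p - 1) * r < 2 * (p - 1) * p ^ s :=
    Nat.mul_lt_mul_of_pos_left hr.2 (by omega)
  have hDr0 : 0 < 2 * (p - 1) * r := Nat.mul_pos (by omega) hr.1
  obtain ⟨a, ha, hxa⟩ := h.periodic.1 (d - k) (by omega) (v r)
    (by rw [show d - k + k = d by omega]; exact hvd)
  rw [← hxa, h.center hp, UAlg.thomP_mul, Finset.sum_eq_zero]
  rintro ⟨b, c⟩ hbc
  rw [Finset.HasAntidiagonal.mem_antidiagonal] at hbc
  simp only at hbc ⊢
  rcases Nat.eq_zero_or_pos c with h0 | h0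
  · rw [show b = r by omega,
      h.good_low hp hs hr.1 hr.2 (n := m) (by omega) (d - k) (by omega) a ha, zero_mul]
  · rw [hlow c h0 (by omega), mul_zero]

include hp in
/-- the case of Wu classes of a vector bundle -/
theorem zero_of_bundle (hT : T.Liulevicius) {k : ℕ} {x : (T.coh M).H}
    (h : (T.coh M).MinimalPeriodic k x) {lam s : ℕ} (hlam : lam ∣ p - 1) (hlam0 : 0 < lam)
    (hk : k = 2 * lam * p ^ s) (hs : ∀ j < s, ∀ n ≤ p, (T.coh M).Good (n * k) (p ^ j))
    (E : T.Bundle M) (hb : (T.coh M).bock x = x * T.bw E)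
    (hE : T.Describes E s x) : s = 0 := by
  by_contra h0
  have hs0 : 0 < s := by omega
  have hp1 := hpf.out.two_le
  obtain ⟨F, hbF, hF⟩ := T.compl E
  obtain ⟨hlow, -, hdec⟩ := thom hp h hlam hlam0 hk hs0 hs E F hE hF
  have hb' : (T.coh M).thomB (T.bw F) k x = 0 := by
    rw [UAlg.thomB, hb, (h.even hp).neg_one_pow, one_mul, ← mul_add, ← T.bw_add, hbF, mul_zero]
  exact hdec (hT M F s hs0 k x h.mem hb' (fun j hj => hlow (p ^ j) (Nat.pow_pos (by omega))
    (Nat.pow_lt_pow_right (by omega) hj)))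

/-- sums of complex line bundles -/
theorem exists_sum (n : ℕ) (t : Fin n → (T.coh M).H) (ht : ∀ i, t i ∈ T.integral M 2) :
    ∃ E : T.Bundle M, T.rank E = 2 * n ∧ T.bw E = 0 ∧ T.wu E 1 = ∑ i, t i ^ (p - 1) := by
  induction n with
  | zero =>
    exact ⟨T.zero M, T.rank_zero M, T.bw_zero M, by
      rw [T.wu_high _ 1 (by rw [T.rank_zero]; omega)]
      simp⟩
  | succ n ih =>
    obtain ⟨E, hE, hEb, hE1⟩ := ih (fun i => t i.castSucc) (fun i => ht _)
    obtain ⟨L, hL, hLb, hL1⟩ := T.line (t (Fin.last n)) (ht _)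
    refine ⟨T.add E L, by rw [T.rank_add, hE, hL]; ring, by rw [T.bw_add, hEb, hLb, add_zero], ?_⟩
    rw [T.wu_add, Finset.Nat.sum_antidiagonal_eq_sum_range_succ_mk, Fin.sum_univ_castSucc]
    simp only [Finset.sum_range_succ, Finset.range_zero, Finset.sum_empty, T.wu_zero, zero_add,
      Nat.sub_zero, one_mul, Nat.sub_self, mul_one, hE1, hL1]
    rw [add_comm]

include hp in
/-- only `P^1 x` is allowed to be nonzero -/
theorem zero_of_line (hT : T.Liulevicius) {k : ℕ} {x : (T.coh M).H}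
    (h : (T.coh M).MinimalPeriodic k x) {lam s : ℕ} (hlam : lam ∣ p - 1) (hlam0 : 0 < lam)
    (hk : k = 2 * lam * p ^ s) (hs : ∀ j < s, ∀ n ≤ p, (T.coh M).Good (n * k) (p ^ j))
    {b : (T.coh M).H} (hbi : b ∈ T.integral M 1) (hb : (T.coh M).bock x = x * b)
    {n : ℕ} (hn : n < p) (t : Fin n → (T.coh M).H)
    (ht : ∀ i, t i ∈ T.integral M 2) (h1 : (T.coh M).P 1 x = x * ∑ i, t i ^ (p - 1))
    (h2 : ∀ j, 0 < j → j < s → (T.coh M).P (p ^ j) x = 0) : s = 0 := by
  by_contra h0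
  obtain ⟨E, hE, hEb, hE1⟩ := exists_sum n t ht
  obtain ⟨C, hCb, hC⟩ := T.circle b hbi
  have hadd : ∀ j, T.wu (T.add C E) j = T.wu E j := by
    intro j
    rw [T.wu_add, Finset.sum_eq_single (0, j)]
    · rw [T.wu_zero, one_mul]
    · rintro ⟨c, d⟩ hcd hne
      rw [Finset.HasAntidiagonal.mem_antidiagonal] at hcd
      simp only [ne_eq, Prod.mk.injEq, not_and] at hne hcd ⊢
      have hc : 0 < c := by
        rcases Nat.eq_zero_or_pos c with h0 | h0
        · exact absurd (by omega) (hne h0)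
        · exact h0
      rw [hC c hc, zero_mul]
    · intro hn
      exact absurd (by simp) hn
  have hhigh : ∀ j, 0 < j → T.wu (T.add C E) (p ^ j) = 0 := by
    intro j hj
    rw [hadd]
    apply T.wu_high
    have : p ≤ p ^ j := Nat.le_self_pow hj.ne' p
    omega
  obtain ⟨c, hc, hPx⟩ := h.P_pow_x hp hlam hlam0 hk hs
  apply h0
  apply zero_of_bundle hp hT h hlam hlam0 hk hs (T.add C E)
    (by rw [hb, T.bw_add, hCb, hEb, add_zero])
  constructor
  · intro j hj
    rcases Nat.eq_zero_or_pos j with hj0 | hj0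
    · subst hj0
      rw [pow_zero, h1, hadd, hE1]
    · rw [h2 j hj0 hj, hhigh j hj0, mul_zero]
  · rw [hhigh s (by omega), mul_zero, hPx]
    apply smul_ne_zero hc
    apply h.pow_ne
    have := Nat.div_le_self (p - 1) lam
    have := hpf.out.two_le
    omega

include hp in
/-- no cohomology in degrees `2(p-1)p^j` -/
theorem zero_of_vanishing (hT : T.Liulevicius) {k : ℕ} {x : (T.coh M).H}
    (h : (T.coh M).MinimalPeriodic k x) {lam s : ℕ} (hlam : lam ∣ p - 1) (hlam0 : 0 < lam)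
    (hk : k = 2 * lam * p ^ s) (hs : ∀ j < s, ∀ n ≤ p, (T.coh M).Good (n * k) (p ^ j))
    (h1 : ∀ b ∈ (T.coh M).gr 1, b ∈ T.integral M 1)
    (h2 : ∀ j < s, ∀ b ∈ (T.coh M).gr (2 * (p - 1) * p ^ j), b = 0) : s = 0 := by
  have hp1 := hpf.out.two_le
  have hkp := h.pos
  have h2k := h.two_k_le
  have hp3 : 3 ≤ p := by omega
  have h3k : 3 * k ≤ p * k := Nat.mul_le_mul_right k hp3
  have hkeven := h.even hp
  have hk1 : 2 ≤ k := by
    obtain ⟨l, hl⟩ := hkeven
    omega
  have hP : ∀ j < s, (T.coh M).P (p ^ j) x = 0 := by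
    intro j hj
    have hlt : 2 * (p - 1) * p ^ j < 2 * (p - 1) * p ^ s :=
      Nat.mul_lt_mul_of_pos_left (Nat.pow_lt_pow_right (by omega) hj) (by omega)
    obtain ⟨m, hm⟩ := hlam
    have hmp : m ≤ p - 1 := by
      rw [hm]
      exact Nat.le_mul_of_pos_left _ hlam0
    have hDk : 2 * (p - 1) * p ^ s = m * k := by rw [hm, hk]; ring
    have hmk : m * k + k ≤ p * k := by
      have h1 := Nat.mul_le_mul_right k (show m + 1 ≤ p by omega)
      rwa [add_mul, one_mul] at h1
    obtain ⟨w, hw, hxw⟩ := h.periodic.1 (2 * (p - 1) * p ^ j) (by omega)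
      ((T.coh M).P (p ^ j) x) (by rw [add_comm]; exact (T.coh M).P_mem (p ^ j) k x h.mem)
    rw [← hxw, h2 j hj w hw, mul_zero]
  obtain ⟨w, hw, hxw⟩ := h.periodic.1 1 (by omega)
    ((T.coh M).bock x) (by rw [add_comm]; exact (T.coh M).bock_mem k x h.mem)
  by_contra h0
  apply h0
  apply zero_of_line hp hT h hlam hlam0 hk hs (h1 w hw) hxw.symm (n := 0) (by omega) (fun i => i.elim0)
    (fun i => i.elim0)
  · have := hP 0 (by omega)
    rw [pow_zero] at this
    rw [this]
    simp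
  · intro j _ hj
    exact hP j hj

end Theory

theorem main {p : ℕ} [hpf : Fact p.Prime] (hp : p ≠ 2) {T : Theory.{u, v} p} {M : T.Space} {k : ℕ}
    {x : (T.coh M).H} (h : (T.coh M).MinimalPeriodic k x) :
    ∃ lam s, lam ∣ p - 1 ∧ k = 2 * lam * p ^ s ∧ (T.coh M).PrimaryPart k lam s x ∧
      (0 < s → T.ThomPart k s x) ∧ (T.Liulevicius → T.Answers s x) := by
  obtain ⟨lam, s, hlam, hlam0, hk, hs⟩ := h.kennard hp
  refine ⟨lam, s, hlam, hk, ⟨?_, h.P_pow_x hp hlam hlam0 hk hs, ?_⟩, ?_, ?_⟩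
  · intro i hi his n hn
    exact h.good_low hp hs hi his hn
  · intro hs0 n hn c hc
    have hne : c • x ^ n ≠ 0 := smul_ne_zero hc (h.pow_ne hn)
    exact ⟨hne, h.not_decomposes hp hlam0 hk hs0 hs hn hne⟩
  · intro hs0 E F hE hF
    exact Theory.thom hp h hlam hlam0 hk hs0 hs E F hE hF
  · intro hT
    exact ⟨fun E hb hE => Theory.zero_of_bundle hp hT h hlam hlam0 hk hs E hb hE,
      fun b hbi hb n hn t ht h1 h2 =>
        Theory.zero_of_line hp hT h hlam hlam0 hk hs hbi hb hn t ht h1 h2,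
      fun h1 h2 => Theory.zero_of_vanishing hp hT h hlam hlam0 hk hs h1 h2⟩

end Pool.Agent.Helper55.BQ
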